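import Pool.Agent.X209.Gss.Exists

open Cardinal Filter Set FirstOrder

namespace Pool.Agent.X209.Gss

universe u

/-- Closure conditions on a family `R` of sets that are satisfied by `V(α)` and `H(θ)`. -/
structure RichSet (R : Set ZFSet.{u}) (ν : Cardinal.{u}) : Prop where
  small : Small.{u} R
  trans : ∀ x ∈ R, ∀ y ∈ x, y ∈ R
  sub : ∀ x ∈ R, ∀ y : ZFSet.{u}, y ⊆ x → y ∈ R
  smallSets : ∀ x : ZFSet.{u}, (∀ y ∈ x, y ∈ R) → x.card ≤ ν → x ∈ R
  union : ∀ x ∈ R, (ZFSet.sUnion x : ZFSet.{u}) ∈ R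
  kappa : (Order.succ ν).ord.toZFSet ∈ R

theorem card_of_param {A : Type u} (f : A → ZFSet.{u}) (hf : Function.Injective f)
    (x : ZFSet.{u}) (hx : ∀ y, y ∈ x ↔ ∃ a, f a = y) : x.card = #A := by
  rw [← lift_inj.{u, u + 1}, ← ZFSet.cardinalMk_coe_sort]
  have h : #(range f) = lift.{u + 1} #A := by
    have := mk_range_eq_of_injective hf
    rwa [lift_id'.{u, u + 1}] at this
  rw [← h]
  have h2 : (x : Set ZFSet.{u}) = range f := by
    ext y
    simp only [SetLike.mem_coe, hx, mem_range]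
  rw [← h2]
  rfl

theorem card_le_of_param {A : Type u} (f : A → ZFSet.{u})
    (x : ZFSet.{u}) (hx : ∀ y ∈ x, ∃ a, f a = y) : x.card ≤ #A := by
  have h1 : x ⊆ ZFSet.range f := by
    intro y hy
    rw [ZFSet.mem_range]
    exact hx y hy
  refine (ZFSet.card_mono h1).trans ?_
  have := ZFSet.lift_card_range_le (f := f)
  simpa using this

/-- every set is parametrised by a type of its cardinality -/
theorem exists_param (x : ZFSet.{u}) : ∃ (A : Type u) (f : A → ZFSet.{u}),
    #A = x.card ∧ Function.Injective f ∧ ∀ y, y ∈ x ↔ ∃ a, f a = y := by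
  refine ⟨Shrink x, fun a => ((equivShrink x).symm a).1, rfl, ?_, ?_⟩
  · intro a b hab
    exact (equivShrink x).symm.injective (Subtype.ext hab)
  · intro y
    constructor
    · intro hy
      exact ⟨equivShrink x ⟨y, hy⟩, by simp⟩
    · rintro ⟨a, rfl⟩
      exact ((equivShrink x).symm a).2

/-- surjection from a large type onto a nonempty set -/
theorem exists_surj_param (x : ZFSet.{u}) {A : Type u} (hA : x.card ≤ #A) (hx : x.Nonempty) :
    ∃ f : A → ZFSet.{u}, ∀ y, y ∈ x ↔ ∃ a, f a = y := by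
  obtain ⟨B, f, hB, -, hf⟩ := exists_param x
  rw [← hB] at hA
  obtain ⟨j⟩ := hA
  obtain ⟨y0, hy0⟩ := hx
  obtain ⟨b0, -⟩ := (hf y0).1 hy0
  have : Nonempty B := ⟨b0⟩
  refine ⟨fun a => f (Function.invFun j a), fun y => ?_⟩
  rw [hf]
  constructor
  · rintro ⟨b, rfl⟩
    exact ⟨j b, by simp only [Function.leftInverse_invFun j.injective b]⟩
  · rintro ⟨a, rfl⟩
    exact ⟨_, rfl⟩

theorem concrete {μ : ℕ → Cardinal.{u}}
    (hlt : ∀ n, μ n < μ (n + 1)) (h0 : Supercompact (μ 0))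
    (hsc : ∀ n, StronglyCompact (μ (n + 1))) (R : Set ZFSet.{u}) (hR : RichSet R (⨆ n, μ n))
    (L : FirstOrder.Language.{0, 0}) [Countable L.Symbols] [L.IsRelational] [L.Structure R] :
    ∃ (S : L.ElementarySubstructure R) (M : ZFSet.{u}), (∀ x, x ∈ M ↔ ∃ y ∈ S, y.1 = x) ∧
      M.card = ⨆ n, μ n ∧ (Order.succ (⨆ n, μ n)).ord.toZFSet ∈ M ∧
      (⨆ n, μ n).ord.toZFSet ⊆ M ∧
      (∀ x ∈ M, x.card ≤ ⨆ n, μ n → x ⊆ M) ∧
      (∀ x ∈ M, x.powerset ∈ R → x.powerset ∈ M) ∧
      ∀ X ∈ M, ∀ d : ZFSet.{u}, d ⊆ X →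
        (∀ Z ∈ M, Z.card ≤ ⨆ n, μ n → d ∩ Z ∈ M) → ∃ e ∈ M, e ⊆ X ∧ e ∩ M = d ∩ M := by
  classical
  set ν : Cardinal.{u} := ⨆ n, μ n with hνdef
  have hμν : ∀ n, μ n ≤ ν := fun n => le_ciSup bddAbove_of_small n
  have hν0 : ℵ₀ ≤ ν := h0.1.le.trans (hμν 0)
  have hsm := hR.small
  let T : Type u := Shrink R
  let eq : R ≃ T := equivShrink R
  let val : T → ZFSet.{u} := fun t => (eq.symm t).1
  have hval : Function.Injective val := fun a b hab => eq.symm.injective (Subtype.ext hab)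
  have hvalR : ∀ t, val t ∈ R := fun t => (eq.symm t).2
  have hvals : ∀ x ∈ R, ∃ t, val t = x := fun x hx => ⟨eq ⟨x, hx⟩, by simp [val]⟩
  let E : T → T → Prop := fun s t => val s ∈ val t
  have hext : ∀ t, #(ext E t) = (val t).card := by
    intro t
    symm
    apply card_of_param (fun s : ext E t => val s.1)
    · intro a b hab
      exact Subtype.ext (hval hab)
    · intro y
      constructor
      · intro hy
        obtain ⟨s, hs⟩ := hvals y (hR.trans _ (hvalR t) _ hy)
        exact ⟨⟨s, by change val s ∈ val t; rw [hs]; exact hy⟩, hs⟩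
      · rintro ⟨s, rfl⟩
        exact s.2
  have hRich : Rich E ν := by
    refine ⟨?_, ?_, ?_⟩
    · intro t S hS
      obtain ⟨s, hs⟩ := hvals (ZFSet.sep (fun y => ∃ z ∈ S, val z = y) (val t))
        (hR.sub _ (hvalR t) _ (fun y hy => (ZFSet.mem_sep.1 hy).1))
      refine ⟨s, ?_⟩
      ext x
      change val x ∈ val s ↔ _
      rw [hs, ZFSet.mem_sep]
      constructor
      · rintro ⟨-, z, hz, hzx⟩
        rwa [← hval hzx]
      · intro hx
        exact ⟨hS hx, x, hx, rfl⟩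
    · intro S hS
      obtain ⟨s, hs⟩ := hvals (ZFSet.range (fun z : S => val z.1)) (by
        apply hR.smallSets
        · intro y hy
          obtain ⟨z, rfl⟩ := ZFSet.mem_range.1 hy
          exact hvalR _
        · refine le_trans ?_ hS
          apply card_le_of_param (fun z : S => val z.1)
          intro y hy
          exact ZFSet.mem_range.1 hy)
      refine ⟨s, ?_⟩
      ext x
      change val x ∈ val s ↔ _
      rw [hs, ZFSet.mem_range]
      constructor
      · rintro ⟨z, hz⟩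
        rw [← hval hz]
        exact z.2
      · intro hx
        exact ⟨⟨x, hx⟩, rfl⟩
    · intro t
      obtain ⟨s, hs⟩ := hvals _ (hR.union _ (hvalR t))
      refine ⟨s, ?_⟩
      ext x
      change val x ∈ val s ↔ _
      rw [hs, ZFSet.mem_sUnion]
      constructor
      · rintro ⟨z, hz, hxz⟩
        obtain ⟨z', rfl⟩ := hvals z (hR.trans _ (hvalR t) _ hz)
        exact ⟨z', hz, hxz⟩
      · rintro ⟨y, hy, hxy⟩
        exact ⟨val y, hy, hxy⟩
  obtain ⟨t0, -⟩ := hRich.small ∅ (by simp)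
  -- the parameters: `κ` and the ordinals below `ν`
  let Γ : Type u := Option ν.ord.ToType
  have hΓ : #Γ ≤ ν := by
    rw [mk_option]
    simp only [mk_ord_toType]
    exact add_le_of_le hν0 le_rfl (one_le_aleph0.trans hν0)
  obtain ⟨tκ, htκ⟩ := hvals _ hR.kappa
  have hordR : ∀ α : Ordinal.{u}, α < (Order.succ ν).ord → α.toZFSet ∈ R := fun α hα =>
    hR.trans _ hR.kappa _ (Ordinal.toZFSet_mem_toZFSet_iff.2 hα)
  have hνlt : ν.ord < (Order.succ ν).ord := ord_lt_ord.2 (Order.lt_succ ν)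
  have hord : ∀ ξ : ν.ord.ToType, ∃ t, val t = (Ordinal.ToType.mk.symm ξ).1.toZFSet := fun ξ =>
    hvals _ (hordR _ ((Ordinal.ToType.mk.symm ξ).2.trans hνlt))
  choose o ho using hord
  let f : Γ → T := fun γ => match γ with
    | none => tκ
    | some ξ => o ξ
  -- the functions
  have hsur : ∀ t : T, ∃ s : ν.ord.ToType → T, #(ext E t) ≤ ν → (ext E t).Nonempty →
      ∀ x, x ∈ ext E t ↔ ∃ ξ, s ξ = x := by
    intro t
    by_cases h : #(ext E t) ≤ ν ∧ (ext E t).Nonempty
    · obtain ⟨h1, x0, h2⟩ := h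
      have h1' : #(ext E t) ≤ #ν.ord.ToType := by rw [mk_ord_toType]; exact h1
      obtain ⟨j⟩ := h1'
      have : Nonempty (ext E t) := ⟨⟨x0, h2⟩⟩
      refine ⟨fun ξ => (Function.invFun j ξ).1, fun _ _ x => ⟨fun hx => ⟨j ⟨x, hx⟩, ?_⟩, ?_⟩⟩
      · simp only [Function.leftInverse_invFun j.injective _]
      · rintro ⟨ξ, rfl⟩
        exact (Function.invFun j ξ).2
    · exact ⟨fun _ => t0, fun h1 h2 => absurd ⟨h1, h2⟩ h⟩
  choose s hs using hsur
  -- `sur t x` is the value of the surjection at the ordinal `x`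
  have hsurj2 : ∃ sur : T → T → T, ∀ t ξ, sur t (o ξ) = s t ξ := by
    have hoinj : Function.Injective o := by
      intro ξ ζ h
      have h1 := congrArg val h
      rw [ho, ho] at h1
      exact Ordinal.ToType.mk.symm.injective (Subtype.ext (Ordinal.toZFSet_injective h1))
    refine ⟨fun t x => if h : ∃ ξ, o ξ = x then s t h.choose else t0, fun t ξ => ?_⟩
    have h : ∃ ζ, o ζ = o ξ := ⟨ξ, rfl⟩
    simp only [dif_pos h]
    rw [hoinj h.choose_spec]
  obtain ⟨sur, hsur⟩ := hsurj2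
  have hpw : ∀ t : T, ∃ p : T, (val t).powerset ∈ R → val p = (val t).powerset := by
    intro t
    by_cases h : (val t).powerset ∈ R
    · obtain ⟨p, hp⟩ := hvals _ h
      exact ⟨p, fun _ => hp⟩
    · exact ⟨t0, fun h' => absurd h' h⟩
  choose pw hpw using hpw
  let ι : Type := Bool ⊕ Σ n, L.BoundedFormula Empty n
  let ar : ι → ℕ := fun i => match i with
    | Sum.inl true => 2
    | Sum.inl false => 1
    | Sum.inr φ => φ.1 - 1
  have hskol : ∀ φ : Σ n, L.BoundedFormula Empty n, ∃ g : (Fin (φ.1 - 1) → T) → T,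
      ∀ (n : ℕ) (ψ : L.BoundedFormula Empty (n + 1)) (h : φ = ⟨n + 1, ψ⟩) (t : Fin n → T) (a : R),
        ψ.Realize default (Fin.snoc (fun i => eq.symm (t i)) a : Fin (n + 1) → R) →
        ψ.Realize default (Fin.snoc (fun i => eq.symm (t i))
          (eq.symm (g (fun i => t (Fin.cast (by rw [h]; rfl) i)))) : Fin (n + 1) → R) := by
    rintro ⟨m, φ⟩
    cases m with
    | zero => exact ⟨fun _ => t0, fun n ψ h => by simp at h⟩
    | succ m =>
      have h1 : ∀ t : Fin m → T, ∃ b : T, ∀ a : R,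
          φ.Realize default (Fin.snoc (fun i => eq.symm (t i)) a : Fin (m + 1) → R) →
          φ.Realize default (Fin.snoc (fun i => eq.symm (t i)) (eq.symm b) : Fin (m + 1) → R) := by
        intro t
        by_cases h : ∃ a : R, φ.Realize default
            (Fin.snoc (fun i => eq.symm (t i)) a : Fin (m + 1) → R)
        · obtain ⟨a, ha⟩ := h
          exact ⟨eq a, fun _ _ => by simpa using ha⟩
        · exact ⟨t0, fun a ha => absurd ⟨a, ha⟩ h⟩
      choose g hg using h1
      refine ⟨g, ?_⟩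
      intro n ψ h t a
      simp only [Sigma.mk.injEq, Nat.add_right_cancel_iff] at h
      obtain ⟨rfl, h⟩ := h
      have h := eq_of_heq h
      subst h
      exact hg t a
  choose g hg using hskol
  let gg : ∀ i : ι, (Fin (ar i) → T) → T := fun i => match i with
    | Sum.inl true => fun t => sur (t 0) (t 1)
    | Sum.inl false => fun t => pw (t 0)
    | Sum.inr φ => g φ
  obtain ⟨M, hMν, hMf, hMg, hMguess⟩ := exists_guessing hlt h0 hsc hRich ar gg hΓ f
  -- the substructure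
  let S0 : L.Substructure R :=
    { carrier := {r | eq r ∈ M}
      fun_mem := fun {n} f => isEmptyElim f }
  have hTV : ∀ (n : ℕ) (φ : L.BoundedFormula Empty (n + 1)) (x : Fin n → S0) (a : R),
      φ.Realize default (Fin.snoc ((↑) ∘ x) a : _ → R) →
        ∃ b : S0, φ.Realize default (Fin.snoc ((↑) ∘ x) b : _ → R) := by
    intro n φ x a h
    have h1 := hMg (Sum.inr ⟨n + 1, φ⟩) (fun i => eq (x i).1) (fun i => (x i).2)
    have h2 := hg ⟨n + 1, φ⟩ n φ rfl (fun i => eq (x i).1) a (by simpa [Function.comp_def] using h)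
    refine ⟨⟨eq.symm (g ⟨n + 1, φ⟩ fun i => eq (x i).1), ?_⟩, ?_⟩
    · change eq (eq.symm _) ∈ M
      rw [Equiv.apply_symm_apply]
      exact h1
    · simpa [Function.comp_def] using h2
  let S : L.ElementarySubstructure R := S0.toElementarySubstructure hTV
  let MZ : ZFSet.{u} := ZFSet.range (fun m : M => val m.1)
  have hMZ : ∀ x, x ∈ MZ ↔ ∃ m ∈ M, val m = x := by
    intro x
    simp only [MZ, ZFSet.mem_range, Subtype.exists, exists_prop]
  have hMZ' : ∀ t, val t ∈ MZ ↔ t ∈ M := by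
    intro t
    rw [hMZ]
    constructor
    · rintro ⟨m, hm, h⟩
      rwa [← hval h]
    · intro h
      exact ⟨t, h, rfl⟩
  have hMR : ∀ x ∈ MZ, ∃ t ∈ M, val t = x := fun x hx => (hMZ x).1 hx
  have hνM : ν.ord.toZFSet ⊆ MZ := by
    intro y hy
    obtain ⟨α, hα, rfl⟩ := Ordinal.mem_toZFSet_iff.1 hy
    have h1 : o (Ordinal.ToType.mk ⟨α, hα⟩) ∈ M := hMf (some _)
    rw [hMZ]
    refine ⟨_, h1, ?_⟩
    rw [ho]
    simp
  refine ⟨S, MZ, ?_, ?_, ?_, hνM, ?_, ?_, ?_⟩
  · intro x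
    rw [hMZ]
    constructor
    · rintro ⟨m, hm, rfl⟩
      refine ⟨eq.symm m, ?_, rfl⟩
      change eq (eq.symm m) ∈ M
      rwa [Equiv.apply_symm_apply]
    · rintro ⟨y, hy, rfl⟩
      exact ⟨eq y, hy, by simp [val]⟩
  · apply le_antisymm
    · refine le_trans ?_ hMν
      apply card_le_of_param (fun m : M => val m.1)
      intro y hy
      exact ZFSet.mem_range.1 hy
    · have := ZFSet.card_mono hνM
      rwa [Ordinal.card_toZFSet, card_ord] at this
  · rw [← htκ, hMZ']
    exact hMf none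
  · intro x hx hxc y hy
    obtain ⟨t, ht, rfl⟩ := hMR x hx
    obtain ⟨z, hz⟩ := hvals y (hR.trans _ (hvalR t) _ hy)
    rw [← hz] at hy ⊢
    obtain ⟨ξ, hξ⟩ := (hs t (by rw [hext]; exact hxc) ⟨z, hy⟩ z).1 hy
    have h1 := hMg (Sum.inl true) ![t, o ξ] (by
      intro i
      fin_cases i
      · exact ht
      · exact hMf (some ξ))
    have h2 : gg (Sum.inl true) ![t, o ξ] = s t ξ := hsur t ξ
    rw [h2, hξ] at h1
    rwa [hMZ']
  · intro x hx hpx
    obtain ⟨t, ht, rfl⟩ := hMR x hx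
    have h1 := hMg (Sum.inl false) ![t] (by
      intro i
      fin_cases i
      exact ht)
    have h2 : gg (Sum.inl false) ![t] = pw t := rfl
    rw [h2] at h1
    rw [← hpw t hpx, hMZ']
    exact h1
  · intro X hX d hdX happ
    obtain ⟨X', hX', rfl⟩ := hMR X hX
    obtain ⟨e, he, heX, heM⟩ := hMguess X' hX' {t | val t ∈ d} (fun t ht => hdX ht) (by
      intro Z hZ hZc
      rw [hext] at hZc
      obtain ⟨s, hs, hs2⟩ := hMR _ (happ (val Z) ((hMZ' Z).2 hZ) hZc)
      refine ⟨s, hs, ?_⟩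
      ext x
      change val x ∈ val s ↔ _
      rw [hs2, ZFSet.mem_inter]
      rfl)
    refine ⟨val e, (hMZ' e).2 he, ?_, ?_⟩
    · intro y hy
      obtain ⟨z, rfl⟩ := hvals y (hR.trans _ (hvalR e) _ hy)
      exact heX hy
    · apply ZFSet.ext
      intro y
      rw [ZFSet.mem_inter, ZFSet.mem_inter]
      constructor
      · rintro ⟨h1, h2⟩
        obtain ⟨m, hm, rfl⟩ := hMR y h2
        exact ⟨(heM m hm).2 h1, h2⟩
      · rintro ⟨h1, h2⟩
        obtain ⟨m, hm, rfl⟩ := hMR y h2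
        exact ⟨(heM m hm).1 h1, h2⟩

end Pool.Agent.X209.Gss
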