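import Mathlib

open Cardinal Filter Set

namespace Pool.Agent.X209.Gss

universe u

/-- The ultrafilter `U` is closed under intersections of fewer than `κ` sets. -/
def KComplete (κ : Cardinal.{u}) {I : Type u} (U : Ultrafilter I) : Prop :=
  ∀ S : Set (Set I), #S < κ → (∀ s ∈ S, s ∈ U) → ⋂₀ S ∈ U

/-- `κ` is strongly compact: `κ` is uncountable and every `P_κ(X)` carries a fine `κ`-complete
ultrafilter. -/
def StronglyCompact (κ : Cardinal.{u}) : Prop :=
  ℵ₀ < κ ∧ ∀ X : Type u, ∃ U : Ultrafilter (Set X), KComplete κ U ∧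
    {a : Set X | #a < κ} ∈ U ∧ ∀ x : X, {a : Set X | x ∈ a} ∈ U

/-- `κ` is supercompact: `κ` is uncountable and every `P_κ(X)` carries a fine normal
`κ`-complete ultrafilter. -/
def Supercompact (κ : Cardinal.{u}) : Prop :=
  ℵ₀ < κ ∧ ∀ X : Type u, ∃ U : Ultrafilter (Set X), KComplete κ U ∧
    {a : Set X | #a < κ} ∈ U ∧ (∀ x : X, {a : Set X | x ∈ a} ∈ U) ∧
    ∀ f : Set X → X, {a : Set X | f a ∈ a} ∈ U → ∃ x : X, {a : Set X | f a = x} ∈ U

theorem KComplete.inst {κ : Cardinal.{u}} {I : Type u} {U : Ultrafilter I}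
    (h : KComplete κ U) : CardinalInterFilter (U : Filter I) κ :=
  ⟨fun S h1 h2 => h S h1 h2⟩

theorem KComplete.ev_forall {κ : Cardinal.{u}} {I : Type u} {U : Ultrafilter I}
    (h : KComplete κ U) {ι : Type u} (hι : #ι < κ) {p : I → ι → Prop} :
    (∀ᶠ x in (U : Filter I), ∀ i, p x i) ↔ ∀ i, ∀ᶠ x in (U : Filter I), p x i := by
  have := h.inst
  exact eventually_cardinal_forall hι

/-- if the ultrafilter is `κ`-complete, an existential quantifier over fewer than `κ` indices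
can be decided. -/
theorem KComplete.ev_exists {κ : Cardinal.{u}} {I : Type u} {U : Ultrafilter I}
    (h : KComplete κ U) {ι : Type u} (hι : #ι < κ) {p : I → ι → Prop}
    (hp : ∀ᶠ x in (U : Filter I), ∃ i, p x i) : ∃ i, ∀ᶠ x in (U : Filter I), p x i := by
  by_contra hcon
  push Not at hcon
  have h1 : ∀ i, ∀ᶠ x in (U : Filter I), ¬ p x i := by
    intro i
    exact hcon i
  have h2 := (h.ev_forall hι).2 h1
  obtain ⟨x, hx1, hx2⟩ := (hp.and h2).exists
  obtain ⟨i, hi⟩ := hx1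
  exact hx2 i hi

theorem KComplete.ev_forall_nat {κ : Cardinal.{u}} {I : Type u} {U : Ultrafilter I}
    (h : KComplete κ U) (hκ : ℵ₀ < κ) {ι : Type} [Countable ι] {p : I → ι → Prop} :
    (∀ᶠ x in (U : Filter I), ∀ i, p x i) ↔ ∀ i, ∀ᶠ x in (U : Filter I), p x i := by
  have := h.inst
  have : CountableInterFilter (U : Filter I) := CardinalInterFilter.toCountableInterFilter _ hκ
  exact eventually_countable_forall

theorem KComplete.ev_exists_nat {κ : Cardinal.{u}} {I : Type u} {U : Ultrafilter I}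
    (h : KComplete κ U) (hκ : ℵ₀ < κ) {ι : Type} [Countable ι] {p : I → ι → Prop}
    (hp : ∀ᶠ x in (U : Filter I), ∃ i, p x i) : ∃ i, ∀ᶠ x in (U : Filter I), p x i := by
  by_contra hcon
  push Not at hcon
  have h1 : ∀ i, ∀ᶠ x in (U : Filter I), ¬ p x i := by
    intro i
    exact hcon i
  have h2 := (h.ev_forall_nat hκ).2 h1
  obtain ⟨x, hx1, hx2⟩ := (hp.and h2).exists
  obtain ⟨i, hi⟩ := hx1
  exact hx2 i hi

/-- Normality in the form of a quantifier exchange. -/
theorem normal_exists {X : Type u} {U : Ultrafilter (Set X)}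
    (hn : ∀ f : Set X → X, {a : Set X | f a ∈ a} ∈ U → ∃ x : X, {a : Set X | f a = x} ∈ U)
    {p : Set X → X → Prop} (hp : ∀ᶠ a in (U : Filter (Set X)), ∃ x ∈ a, p a x) :
    ∃ x, ∀ᶠ a in (U : Filter (Set X)), p a x := by
  classical
  obtain ⟨a0, x0, hx0, -⟩ := hp.exists
  let f : Set X → X := fun a => if h : ∃ x ∈ a, p a x then h.choose else x0
  have hf : ∀ a, (∃ x ∈ a, p a x) → f a ∈ a ∧ p a (f a) := by
    intro a ha
    simp only [f, dif_pos ha]
    exact ha.choose_spec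
  obtain ⟨x, hx⟩ := hn f (hp.mono fun a ha => (hf a ha).1)
  refine ⟨x, ?_⟩
  have hx' : ∀ᶠ a in (U : Filter (Set X)), f a = x := hx
  filter_upwards [hx', hp] with a h1 h2
  rw [← h1]
  exact (hf a h2).2

/-- A supercompact measure concentrates on sets closed under a given finitary function. -/
theorem normal_closed {X : Type u} {U : Ultrafilter (Set X)}
    (hfine : ∀ x : X, {a : Set X | x ∈ a} ∈ U)
    (hn : ∀ f : Set X → X, {a : Set X | f a ∈ a} ∈ U → ∃ x : X, {a : Set X | f a = x} ∈ U)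
    {n : ℕ} (g : (Fin n → X) → X) :
    ∀ᶠ a in (U : Filter (Set X)), ∀ t : Fin n → X, (∀ i, t i ∈ a) → g t ∈ a := by
  classical
  by_contra hcon
  have hcon' : ∀ᶠ a in (U : Filter (Set X)), ¬ ∀ t : Fin n → X, (∀ i, t i ∈ a) → g t ∈ a := by
    rw [Ultrafilter.eventually_not]; exact hcon
  have h1 : ∀ᶠ a in (U : Filter (Set X)), ∃ t : Fin n → X, (∀ i, t i ∈ a) ∧ g t ∉ a := by
    filter_upwards [hcon'] with a ha
    push Not at ha
    exact ha
  obtain ⟨a0, t0, ht0, -⟩ := h1.exists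
  let f : Set X → (Fin n → X) := fun a =>
    if h : ∃ t : Fin n → X, (∀ i, t i ∈ a) ∧ g t ∉ a then h.choose else t0
  have hf : ∀ᶠ a in (U : Filter (Set X)), (∀ i, f a i ∈ a) ∧ g (f a) ∉ a := by
    filter_upwards [h1] with a ha
    simp only [f, dif_pos ha]
    exact ha.choose_spec
  have h2 : ∀ i : Fin n, ∃ x, ∀ᶠ a in (U : Filter (Set X)), f a i = x := by
    intro i
    exact hn (fun a => f a i) (hf.mono fun a ha => ha.1 i)
  choose y hy using h2
  have h3 : ∀ᶠ a in (U : Filter (Set X)), ∀ i, f a i = y i := by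
    rw [eventually_all]; exact hy
  have h4 : ∀ᶠ a in (U : Filter (Set X)), g y ∈ a := hfine (g y)
  obtain ⟨a, ha1, ha2, ha3⟩ := (hf.and (h3.and h4)).exists
  have : f a = y := funext ha2
  rw [this] at ha1
  exact ha1.2 ha3

end Pool.Agent.X209.Gss
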