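import Pool.Agent.X209.Gss.Main

open Cardinal Filter Set

namespace Pool.Agent.X209.Gss

universe u

/-- In a rich structure one can code `ν`-sequences by elements. -/
theorem Rich.exists_dec {T : Type u} {E : T → T → Prop} {ν : Cardinal.{u}} (hR : Rich E ν)
    (hν : ℵ₀ ≤ ν) (Λ : Type u) (hΛ : #Λ = ν) : ∃ dec : T → Λ → T, Function.Surjective dec := by
  classical
  have h1 : ν < #T := by
    by_contra h
    push Not at h
    have hs : Function.Surjective (fun t => ext E t) := by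
      intro S
      exact hR.small S ((mk_set_le S).trans h)
    exact Function.cantor_surjective _ hs
  have h2 : #(Λ × T) = #T := by
    simp only [mk_prod, lift_id, hΛ]
    rw [mul_eq_max hν (hν.trans h1.le)]
    exact max_eq_right h1.le
  obtain ⟨e⟩ := Cardinal.eq.1 h2
  have h3 : ∀ f : Λ → T, ∃ s, ext E s = range (fun ξ => e (ξ, f ξ)) := fun f =>
    hR.small _ (mk_range_le.trans hΛ.le)
  choose c hc using h3
  have hinj : Function.Injective c := by
    intro f g hfg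
    have h4 : range (fun ξ => e (ξ, f ξ)) = range (fun ξ => e (ξ, g ξ)) := by
      rw [← hc, ← hc, hfg]
    funext ξ
    have h5 : e (ξ, f ξ) ∈ range (fun ξ => e (ξ, g ξ)) := by
      rw [← h4]; exact ⟨ξ, rfl⟩
    obtain ⟨ζ, hζ⟩ := h5
    have h6 := e.injective hζ
    simp only [Prod.mk.injEq] at h6
    obtain ⟨h7, h8⟩ := h6
    rw [← h8, h7]
  have hne : Nonempty T := by
    have : #T ≠ 0 := by
      intro h
      rw [h] at h1
      exact absurd h1 (by simp)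
    exact mk_ne_zero_iff.1 this
  obtain ⟨t0⟩ := hne
  have : Nonempty (Λ → T) := ⟨fun _ => t0⟩
  exact ⟨Function.invFun c, Function.invFun_surjective hinj⟩

/-- The abstract existence theorem. -/
theorem exists_guessing {T : Type u} {E : T → T → Prop} {μ : ℕ → Cardinal.{u}}
    (hlt : ∀ n, μ n < μ (n + 1)) (h0 : Supercompact (μ 0))
    (hsc : ∀ n, StronglyCompact (μ (n + 1))) (hR : Rich E (⨆ n, μ n))
    {ι : Type} [Countable ι] (ar : ι → ℕ) (g : ∀ i, (Fin (ar i) → T) → T)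
    {Γ : Type u} (hΓ : #Γ ≤ ⨆ n, μ n) (f : Γ → T) :
    ∃ M : Set T, #M ≤ ⨆ n, μ n ∧ (∀ ξ, f ξ ∈ M) ∧
      (∀ i (t : Fin (ar i) → T), (∀ j, t j ∈ M) → g i t ∈ M) ∧
      ∀ X ∈ M, ∀ D ⊆ ext E X,
        (∀ Z ∈ M, #(ext E Z) ≤ ⨆ n, μ n → ∃ s ∈ M, ext E s = D ∩ ext E Z) →
        ∃ e ∈ M, ext E e ⊆ ext E X ∧ ∀ x ∈ M, (x ∈ D ↔ x ∈ ext E e) := by
  classical
  set ν : Cardinal.{u} := ⨆ n, μ n with hνdef
  have hμν : ∀ n, μ n ≤ ν := fun n => le_ciSup bddAbove_of_small n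
  have hμ0 : ∀ n, ℵ₀ < μ n := by
    intro n
    cases n with
    | zero => exact h0.1
    | succ n => exact (hsc n).1
  have hν0 : ℵ₀ ≤ ν := (hμ0 0).le.trans (hμν 0)
  let Λ : Type u := Σ n : ℕ, (μ n).out
  have hΛ : #Λ = ν := by
    apply le_antisymm
    · rw [mk_sigma]
      simp only [mk_out]
      have h := sum_le_lift_mk_mul_iSup (fun n : ℕ => μ n)
      refine h.trans ?_
      calc lift.{u} #ℕ * ⨆ n, μ n ≤ ν * ν := mul_le_mul' (by simpa using hν0) le_rfl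
        _ = ν := mul_eq_self hν0
    · apply ciSup_le'
      intro n
      have : #(μ n).out ≤ #Λ := mk_le_of_injective (f := fun x => (⟨n, x⟩ : Λ)) (by
        intro x y hxy
        exact eq_of_heq (Sigma.mk.inj_iff.1 hxy).2)
      simpa using this
  have : Infinite Λ := by
    rw [Cardinal.infinite_iff, hΛ]; exact hν0
  obtain ⟨dec, hdec⟩ := hR.exists_dec hν0 Λ hΛ
  obtain ⟨U, hc, hsm, hfine, hn⟩ := h0.2 T
  have hguess := ev_guess (dec := dec) (U := U) hR hμν hΛ (fun ξ => ξ.1) (by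
    intro n
    have : #{ξ : Λ // ξ.1 = n} ≤ #(μ n).out := by
      apply mk_le_of_surjective (f := fun x => (⟨⟨n, x⟩, rfl⟩ : {ξ : Λ // ξ.1 = n}))
      rintro ⟨⟨m, x⟩, rfl⟩
      exact ⟨x, rfl⟩
    simpa using this) hμ0 hlt hsc hc hfine hn hdec
  have hclosed : ∀ᶠ a in (U : Filter (Set T)), ∀ i, ∀ t : Fin (ar i) → T,
      (∀ j, t j ∈ hull dec a) → g i t ∈ hull dec a :=
    (hc.ev_forall_nat h0.1).2 fun i => ev_hull_closed hfine hn hdec (g i)
  have hf : ∀ᶠ a in (U : Filter (Set T)), ∀ ξ, f ξ ∈ hull dec a := by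
    obtain ⟨j⟩ : #Γ ≤ #Λ := hΓ.trans hΛ.ge
    obtain ⟨t0, -⟩ := hR.small ∅ (by simp)
    have h1 := ev_hull hfine hdec (fun ξ : Λ => if h : ∃ γ, j γ = ξ then f h.choose else t0)
    filter_upwards [h1] with a ha γ
    have h2 := ha (j γ)
    have h3 : ∃ γ', j γ' = j γ := ⟨γ, rfl⟩
    rw [dif_pos h3] at h2
    rwa [j.injective h3.choose_spec] at h2
  have hsm' : ∀ᶠ a in (U : Filter (Set T)), #(a : Set T) < μ 0 := hsm
  obtain ⟨a, ha1, ha2, ha3, ha4⟩ := (hguess.and (hclosed.and (hf.and hsm'))).exists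
  refine ⟨hull dec a, ?_, ha3, ha2, ha1⟩
  have h5 : hull dec a = ⋃ t ∈ a, range (dec t) := by
    ext x
    simp [hull]
  rw [h5]
  exact mk_biUnion_small hν0 a (ha4.le.trans (hμν 0)) _ fun t _ => mk_range_le.trans hΛ.le

end Pool.Agent.X209.Gss
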