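import Pool.Agent.X209.Gss.Sets

open Cardinal Filter Set FirstOrder

namespace Pool.Agent.X209.Gss

universe u

/-- `κ` is `κ_M`: the least ordinal `α ∈ M` with `M ∩ α ≠ α`. -/
def IsKappa (M : ZFSet.{u}) (κ : Ordinal.{u}) : Prop :=
  IsLeast {α : Ordinal.{u} | α.toZFSet ∈ M ∧ ¬ α.toZFSet ⊆ M} κ

/-- The relation symbols of the structures `⟨R, ∈, A⟩`: the binary symbol `∈`, and for each `n` an
`n`-ary symbol for `{x₁, …, xₙ} ∈ A`. -/
inductive Sym : ℕ → Type
  | mem : Sym 2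
  | pred (n : ℕ) : Sym n

/-- The language of the structures `⟨R, ∈, A⟩`. -/
def LR : FirstOrder.Language.{0, 0} := ⟨fun _ => Empty, Sym⟩

/-- The structure `⟨R, ∈, A⟩`. -/
@[instance_reducible] def str (R : Set ZFSet.{u}) (A : Set (Set ZFSet.{u})) : LR.Structure R where
  funMap := fun f => Empty.elim f
  RelMap := fun {_} r => match r with
    | Sym.mem => fun v => (v 0).1 ∈ (v 1).1
    | Sym.pred _ => fun v => (Set.range fun i => (v i).1) ∈ A

/-- `M` is (the underlying set of) an elementary substructure of `⟨R, ∈, A⟩`. -/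
def ElemSubA (R : Set ZFSet.{u}) (A : Set (Set ZFSet.{u})) (M : ZFSet.{u}) : Prop :=
  ∃ S : @FirstOrder.Language.ElementarySubstructure LR R (str R A),
    ∀ x : ZFSet.{u}, x ∈ M ↔ ∃ y ∈ S, y.1 = x

/-- `M ≺ R` is `δ`-guessing: each `d ∈ P(X) ∩ R`, where `X ∈ M`, such that `d ∩ Z ∈ M` for all
`Z ∈ M ∩ P_δ(R)`, is `M`-guessed, that is `d ∩ M = e ∩ M` for some `e ∈ M ∩ P(X)`. -/
def DeltaGuessing (R : Set ZFSet.{u}) (δ : Cardinal.{u}) (M : ZFSet.{u}) : Prop :=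
  ∀ X ∈ M, ∀ d ∈ R, d ⊆ X →
    (∀ Z ∈ M, (∀ z ∈ Z, z ∈ R) → Z.card < δ → d ∩ Z ∈ M) →
    ∃ e ∈ M, e ⊆ X ∧ d ∩ M = e ∩ M

/-- the relation symbol `∈` -/
inductive SymMem : ℕ → Type
  | mem : SymMem 2

/-- the language of set theory -/
def LM : FirstOrder.Language.{0, 0} := ⟨fun _ => Empty, SymMem⟩

/-- The structure `⟨R, ∈⟩`. -/
@[instance_reducible] def strMem (R : Set ZFSet.{u}) : LM.Structure R where
  funMap := fun f => Empty.elim f
  RelMap := fun {_} r => match r with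
    | SymMem.mem => fun v => (v 0).1 ∈ (v 1).1

/-- `M` is an elementary submodel of `⟨H(θ), ∈⟩`. -/
def ElemSubH (θ : Cardinal.{u}) (M : ZFSet.{u}) : Prop :=
  ∃ S : @FirstOrder.Language.ElementarySubstructure LM (Hset θ) (strMem (Hset θ)),
    ∀ x : ZFSet.{u}, x ∈ M ↔ ∃ y ∈ S, y.1 = x

/-- `x` is bounded in `M`. -/
def BoundedIn (M x : ZFSet.{u}) : Prop := ∃ X ∈ M, x ⊆ X

/-- `x` is `δ`-approximated in `M`. -/
def ApproxIn (δ : Cardinal.{u}) (M x : ZFSet.{u}) : Prop := ∀ a ∈ M, a.card < δ → x ∩ a ∈ M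

/-- `x` is guessed in `M`. -/
def GuessedIn (M x : ZFSet.{u}) : Prop := ∃ y ∈ M, y ∩ M = x ∩ M

/-- `M` is `δ`-guessing: each set bounded in `M` and `δ`-approximated in `M` is guessed in `M`.
(For `δ = 0` this says that each set bounded in `M` is guessed in `M`.) -/
def Guessing (δ : Cardinal.{u}) (M : ZFSet.{u}) : Prop :=
  ∀ x : ZFSet.{u}, BoundedIn M x → ApproxIn δ M x → GuessedIn M x

instance : LR.IsRelational := fun _ => inferInstanceAs (IsEmpty Empty)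

instance : LM.IsRelational := fun _ => inferInstanceAs (IsEmpty Empty)

instance (n : ℕ) : Countable (Sym n) := by
  refine (Function.Injective.countable (β := Bool) (f := fun s => match s with
    | Sym.mem => true
    | Sym.pred _ => false) ?_)
  intro a b
  cases a <;> cases b <;> simp

instance (n : ℕ) : Countable (SymMem n) := by
  refine (Function.Injective.countable (β := Bool) (f := fun _ => true) ?_)
  intro a b
  cases a; cases b; simp

instance : Countable LR.Symbols := by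
  have h1 : Countable (Σ l, LR.Functions l) := inferInstanceAs (Countable (Σ _ : ℕ, Empty))
  have h2 : Countable (Σ l, LR.Relations l) := inferInstanceAs (Countable (Σ l : ℕ, Sym l))
  exact inferInstanceAs (Countable ((Σ l, LR.Functions l) ⊕ (Σ l, LR.Relations l)))

instance : Countable LM.Symbols := by
  have h1 : Countable (Σ l, LM.Functions l) := inferInstanceAs (Countable (Σ _ : ℕ, Empty))
  have h2 : Countable (Σ l, LM.Relations l) := inferInstanceAs (Countable (Σ l : ℕ, SymMem l))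
  exact inferInstanceAs (Countable ((Σ l, LM.Functions l) ⊕ (Σ l, LM.Relations l)))

theorem isKappa_of {ν : Cardinal.{u}} {M : ZFSet.{u}} (h1 : M.card = ν)
    (h2 : (Order.succ ν).ord.toZFSet ∈ M) (h3 : ∀ x ∈ M, x.card ≤ ν → x ⊆ M) :
    IsKappa M (Order.succ ν).ord := by
  refine ⟨⟨h2, ?_⟩, ?_⟩
  · intro h
    have h4 := ZFSet.card_mono h
    rw [Ordinal.card_toZFSet, card_ord, h1] at h4
    exact absurd h4 (not_le.2 (Order.lt_succ ν))
  · rintro α ⟨hα1, hα2⟩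
    by_contra h
    push Not at h
    apply hα2
    apply h3 _ hα1
    rw [Ordinal.card_toZFSet]
    exact Order.le_of_lt_succ (Cardinal.lt_ord.1 h)

theorem main_A {μ : ℕ → Cardinal.{u}} (hμ : StrictMono μ) (h0 : Supercompact (μ 0))
    (hsc : ∀ n, StronglyCompact (μ (n + 1))) (R : Set ZFSet.{u})
    (hR : (∃ α : Ordinal.{u}, (Order.succ (⨆ n, μ n)).ord < α ∧ ⨆ n, μ n < α.cof ∧ R = Vset α) ∨
      ∃ θ : Cardinal.{u}, θ.IsRegular ∧ Order.succ (⨆ n, μ n) < θ ∧ R = Hset θ)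
    (A : Set (Set ZFSet.{u})) :
    ∃ M : ZFSet.{u}, ElemSubA R A M ∧ M.card = ⨆ n, μ n ∧
      IsKappa M (Order.succ (⨆ n, μ n)).ord ∧ DeltaGuessing R (Order.succ (⨆ n, μ n)) M := by
  have hlt : ∀ n, μ n < μ (n + 1) := fun n => hμ (Nat.lt_succ_self n)
  have hν0 : ℵ₀ ≤ ⨆ n, μ n := h0.1.le.trans (le_ciSup bddAbove_of_small 0)
  have hrich : RichSet R (⨆ n, μ n) := by
    rcases hR with ⟨α, h1, h2, rfl⟩ | ⟨θ, h1, h2, rfl⟩
    · exact richSet_Vset h2 h1
    · exact richSet_Hset hν0 h1 h2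
  let _ := str R A
  obtain ⟨S, M, hS, hM, hκ, hνM, hcl, hpw, hg⟩ := concrete hlt h0 hsc R hrich LR
  refine ⟨M, ⟨S, hS⟩, hM, isKappa_of hM hκ hcl, ?_⟩
  intro X hX d hdR hdX happ
  obtain ⟨e, he, heX, heM⟩ := hg X hX d hdX (fun Z hZ hZc => happ Z hZ (fun z hz => by
    obtain ⟨y, hy, hyZ⟩ := (hS Z).1 hZ
    exact hrich.trans Z (hyZ ▸ y.2) z hz) (Order.lt_succ_of_le hZc))
  exact ⟨e, he, heX, heM.symm⟩

theorem main_H {μ : ℕ → Cardinal.{u}} (hμ : StrictMono μ) (h0 : Supercompact (μ 0))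
    (hsc : ∀ n, StronglyCompact (μ (n + 1))) (θ : Cardinal.{u}) (hθ : θ.IsRegular)
    (hθ2 : Order.succ (⨆ n, μ n) < θ) :
    ∃ M : ZFSet.{u}, ElemSubH θ M ∧ M.card = ⨆ n, μ n ∧
      IsKappa M (Order.succ (⨆ n, μ n)).ord ∧ Guessing (Order.succ (⨆ n, μ n)) M ∧
      ∀ γ ≤ ⨆ n, μ n, ¬ Guessing γ M := by
  have hlt : ∀ n, μ n < μ (n + 1) := fun n => hμ (Nat.lt_succ_self n)
  have hν0 : ℵ₀ ≤ ⨆ n, μ n := h0.1.le.trans (le_ciSup bddAbove_of_small 0)
  have hrich : RichSet (Hset θ) (⨆ n, μ n) := richSet_Hset hν0 hθ hθ2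
  let _ := strMem (Hset θ)
  obtain ⟨S, M, hS, hM, hκ, hνM, hcl, hpw, hg⟩ := concrete hlt h0 hsc (Hset θ) hrich LM
  refine ⟨M, ⟨S, hS⟩, hM, isKappa_of hM hκ hcl, ?_, ?_⟩
  · rintro x ⟨X, hX, hxX⟩ happ
    obtain ⟨e, he, -, heM⟩ := hg X hX x hxX (fun Z hZ hZc => happ Z hZ (Order.lt_succ_of_le hZc))
    exact ⟨e, he, heM⟩
  · intro γ hγ hG
    have hMR : ∀ x ∈ M, x ∈ Hset θ := by
      intro x hx
      obtain ⟨y, hy, hyx⟩ := (hS x).1 hx
      exact hyx ▸ y.2
    -- all subsets of small members of `M` belong to `M`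
    have hsub : ∀ a ∈ M, a.card < ⨆ n, μ n → ∀ b : ZFSet.{u}, b ⊆ a → b ∈ M := by
      intro a ha hac b hb
      have h1 : a.powerset.card ≤ ⨆ n, μ n := by
        rw [ZFSet.card_powerset]
        exact (iSup_strongLimit hlt hsc hac).le
      have h2 : a.powerset ∈ Hset θ := by
        apply hrich.smallSets _ _ h1
        intro y hy
        exact hrich.sub a (hMR a ha) y (ZFSet.mem_powerset.1 hy)
      exact hcl _ (hpw a ha h2) h1 (ZFSet.mem_powerset.2 hb)
    have hall : ∀ d : ZFSet.{u}, d ⊆ (⨆ n, μ n).ord.toZFSet → ∃ e ∈ M, e ∩ M = d := by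
      intro d hd
      have hdM : d ∩ M = d := by
        apply ZFSet.ext
        intro y
        rw [ZFSet.mem_inter]
        exact ⟨fun h => h.1, fun h => ⟨h, hνM (hd h)⟩⟩
      obtain ⟨e, he, he2⟩ := hG d ⟨_, hκ, hd.trans (Ordinal.toZFSet_monotone
        (ord_le_ord.2 (Order.le_succ _)))⟩ (fun a ha hac =>
          hsub a ha (hac.trans_le hγ) _ (fun y hy => (ZFSet.mem_inter.1 hy).2))
      exact ⟨e, he, he2.trans hdM⟩
    obtain ⟨B, f, hB, hfi, hf⟩ := exists_param M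
    have h3 : ((⨆ n, μ n).ord.toZFSet).powerset.card ≤ #B := by
      apply card_le_of_param (fun b : B => f b ∩ M)
      intro y hy
      obtain ⟨e, he, he2⟩ := hall y (ZFSet.mem_powerset.1 hy)
      obtain ⟨b, rfl⟩ := (hf e).1 he
      exact ⟨b, he2⟩
    rw [ZFSet.card_powerset, Ordinal.card_toZFSet, card_ord, hB, hM] at h3
    exact absurd h3 (not_le.2 (cantor _))

end Pool.Agent.X209.Gss
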