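import Pool.Agent.X209.Gss.Core

open Cardinal Filter Set

namespace Pool.Agent.X209.Gss

universe u

/-- The extension of `t` with respect to the membership relation `E`. -/
def ext {T : Type u} (E : T → T → Prop) (t : T) : Set T := {x | E x t}

/-- The relation `E` on `T` is closed under subsets, under small sets and under unions. -/
structure Rich {T : Type u} (E : T → T → Prop) (ν : Cardinal.{u}) : Prop where
  sub : ∀ (t : T) (S : Set T), S ⊆ ext E t → ∃ s, ext E s = S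
  small : ∀ S : Set T, #S ≤ ν → ∃ s, ext E s = S
  union : ∀ t : T, ∃ s, ext E s = {x | ∃ y ∈ ext E t, x ∈ ext E y}

/-- The hull of `a`: all values of the `Λ`-sequences coded by members of `a`. -/
def hull {T Λ : Type u} (dec : T → Λ → T) (a : Set T) : Set T :=
  {x | ∃ t ∈ a, ∃ ξ, dec t ξ = x}

theorem mk_biUnion_small {α β : Type u} {ν : Cardinal.{u}} (hν : ℵ₀ ≤ ν) (s : Set α)
    (hs : #s ≤ ν) (A : α → Set β) (hA : ∀ x ∈ s, #(A x) ≤ ν) : #(⋃ x ∈ s, A x : Set β) ≤ ν := by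
  refine (mk_biUnion_le A s).trans ?_
  calc #s * ⨆ x : s, #(A x.1) ≤ ν * ν :=
        mul_le_mul' hs (ciSup_le' fun x => hA x.1 x.2)
    _ = ν := mul_eq_self hν

theorem mk_iUnion_nat_small {β : Type u} {ν : Cardinal.{u}} (hν : ℵ₀ ≤ ν) (A : ℕ → Set β)
    (hA : ∀ n, #(A n) ≤ ν) : #(⋃ n, A n : Set β) ≤ ν := by
  have h := mk_iUnion_le_lift A
  have h2 : lift.{u} #ℕ * ⨆ n, lift.{0} #(A n) ≤ ν * ν := by
    apply mul_le_mul'
    · simpa using hν
    · exact ciSup_le' fun n => by simpa using hA n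
  have h3 := h.trans (h2.trans (mul_eq_self hν).le)
  simpa using h3

section
variable {T Λ : Type u} {E : T → T → Prop} {dec : T → Λ → T} {U : Ultrafilter (Set T)}

theorem ev_hull (hfine : ∀ x : T, {a : Set T | x ∈ a} ∈ U) (hdec : Function.Surjective dec)
    (f : Λ → T) : ∀ᶠ a in (U : Filter (Set T)), ∀ ξ, f ξ ∈ hull dec a := by
  obtain ⟨t, ht⟩ := hdec f
  have h1 : ∀ᶠ a in (U : Filter (Set T)), t ∈ a := hfine t
  filter_upwards [h1] with a ha ξ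
  exact ⟨t, ha, ξ, by rw [ht]⟩

theorem ev_exists_hull {κ : Cardinal.{u}} (hκ : ℵ₀ < κ) (hc : KComplete κ U)
    (hn : ∀ f : Set T → T, {a : Set T | f a ∈ a} ∈ U → ∃ x : T, {a : Set T | f a = x} ∈ U)
    (lev : Λ → ℕ) {p : Set T → T → Prop}
    (hp : ∀ᶠ a in (U : Filter (Set T)), ∃ x ∈ hull dec a, p a x) :
    ∃ (f : Λ → T) (n : ℕ), ∀ᶠ a in (U : Filter (Set T)), ∃ ξ, lev ξ = n ∧ p a (f ξ) := by
  have h1 : ∀ᶠ a in (U : Filter (Set T)), ∃ t ∈ a, ∃ ξ, p a (dec t ξ) := by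
    filter_upwards [hp] with a ha
    obtain ⟨x, ⟨t, ht, ξ, rfl⟩, hx⟩ := ha
    exact ⟨t, ht, ξ, hx⟩
  obtain ⟨t, ht⟩ := normal_exists hn h1
  have h2 : ∀ᶠ a in (U : Filter (Set T)), ∃ n : ℕ, ∃ ξ, lev ξ = n ∧ p a (dec t ξ) := by
    filter_upwards [ht] with a ha
    obtain ⟨ξ, hξ⟩ := ha
    exact ⟨lev ξ, ξ, rfl, hξ⟩
  obtain ⟨n, hn'⟩ := hc.ev_exists_nat hκ h2
  exact ⟨dec t, n, hn'⟩

theorem ev_hull_closed (hfine : ∀ x : T, {a : Set T | x ∈ a} ∈ U)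
    (hn : ∀ f : Set T → T, {a : Set T | f a ∈ a} ∈ U → ∃ x : T, {a : Set T | f a = x} ∈ U)
    (hdec : Function.Surjective dec) [Infinite Λ] {n : ℕ} (g : (Fin n → T) → T) :
    ∀ᶠ a in (U : Filter (Set T)), ∀ t : Fin n → T, (∀ i, t i ∈ hull dec a) →
      g t ∈ hull dec a := by
  classical
  have hsurj : ∃ π : Λ → (Fin n → Λ), Function.Surjective π := by
    have hle : #(Fin n → Λ) ≤ #Λ := by
      have := power_nat_le (n := n) (aleph0_le_mk Λ)
      simpa using this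
    obtain ⟨j⟩ := hle
    exact ⟨Function.invFun j, Function.invFun_surjective j.injective⟩
  obtain ⟨π, hπ⟩ := hsurj
  let G : (Fin n → T) → T := fun t => (hdec (fun ξ => g (fun i => dec (t i) (π ξ i)))).choose
  have hG : ∀ t, dec (G t) = fun ξ => g (fun i => dec (t i) (π ξ i)) := fun t =>
    (hdec (fun ξ => g (fun i => dec (t i) (π ξ i)))).choose_spec
  filter_upwards [normal_closed hfine hn G] with a ha t ht
  choose s hs ξ hξ using ht
  obtain ⟨ζ, hζ⟩ := hπ ξ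
  refine ⟨G s, ha s hs, ζ, ?_⟩
  rw [hG]
  simp only [hζ, hξ]

/-- The main lemma: if `U` is a supercompactness measure on `T` and there are strongly compact
cardinals cofinal in `ν`, then almost every hull is `ν⁺`-guessing. -/
theorem ev_guess {μ : ℕ → Cardinal.{u}} {ν : Cardinal.{u}} (hR : Rich E ν)
    (hμν : ∀ n, μ n ≤ ν) (hΛ : #Λ = ν) (lev : Λ → ℕ) (hlev : ∀ n, #{ξ : Λ // lev ξ = n} ≤ μ n)
    (hμ0 : ∀ n, ℵ₀ < μ n) (hlt : ∀ n, μ n < μ (n + 1)) (hsc : ∀ n, StronglyCompact (μ (n + 1)))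
    (hc : KComplete (μ 0) U)
    (hfine : ∀ x : T, {a : Set T | x ∈ a} ∈ U)
    (hn : ∀ f : Set T → T, {a : Set T | f a ∈ a} ∈ U → ∃ x : T, {a : Set T | f a = x} ∈ U)
    (hdec : Function.Surjective dec) [Infinite Λ] :
    ∀ᶠ a in (U : Filter (Set T)), ∀ X ∈ hull dec a, ∀ D ⊆ ext E X,
      (∀ Z ∈ hull dec a, #(ext E Z) ≤ ν → ∃ s ∈ hull dec a, ext E s = D ∩ ext E Z) →
      ∃ e ∈ hull dec a, ext E e ⊆ ext E X ∧ ∀ x ∈ hull dec a, (x ∈ D ↔ x ∈ ext E e) := by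
  classical
  have hν0 : ℵ₀ ≤ ν := (hμ0 0).le.trans (hμν 0)
  by_contra hcon
  rw [← Ultrafilter.eventually_not] at hcon
  -- choose the bad data
  have hbad : ∀ᶠ a in (U : Filter (Set T)), ∃ X ∈ hull dec a, ∃ D : Set T, D ⊆ ext E X ∧
      (∀ Z ∈ hull dec a, #(ext E Z) ≤ ν → ∃ s ∈ hull dec a, ext E s = D ∩ ext E Z) ∧
      ∀ e ∈ hull dec a, ext E e ⊆ ext E X → ∃ x ∈ hull dec a, ¬ (x ∈ D ↔ x ∈ ext E e) := by
    filter_upwards [hcon] with a ha
    by_contra h2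
    apply ha
    intro X hX D hD hap
    by_contra h3
    apply h2
    refine ⟨X, hX, D, hD, hap, ?_⟩
    intro e he heX
    by_contra h4
    apply h3
    refine ⟨e, he, heX, ?_⟩
    intro x hx
    by_contra h5
    exact h4 ⟨x, hx, h5⟩
  -- the sequence containing the sets `X`
  have hbad' : ∀ᶠ a in (U : Filter (Set T)), ∃ X ∈ hull dec a, X ∈ hull dec a ∧
      ∃ D : Set T, D ⊆ ext E X ∧
      (∀ Z ∈ hull dec a, #(ext E Z) ≤ ν → ∃ s ∈ hull dec a, ext E s = D ∩ ext E Z) ∧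
      ∀ e ∈ hull dec a, ext E e ⊆ ext E X → ∃ x ∈ hull dec a, ¬ (x ∈ D ↔ x ∈ ext E e) := by
    filter_upwards [hbad] with a ha
    obtain ⟨X, hX, hrest⟩ := ha
    exact ⟨X, hX, hX, hrest⟩
  obtain ⟨fX, nX, hfX⟩ := ev_exists_hull (hμ0 0) hc hn lev hbad'
  -- choose functions of `a`
  have hch : ∃ (X : Set T → T) (D : Set T → Set T), ∀ᶠ a in (U : Filter (Set T)),
      (∃ ξ, fX ξ = X a) ∧ X a ∈ hull dec a ∧ D a ⊆ ext E (X a) ∧
      (∀ Z ∈ hull dec a, #(ext E Z) ≤ ν → ∃ s ∈ hull dec a, ext E s = D a ∩ ext E Z) ∧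
      ∀ e ∈ hull dec a, ext E e ⊆ ext E (X a) →
        ∃ x ∈ hull dec a, ¬ (x ∈ D a ↔ x ∈ ext E e) := by
    obtain ⟨a0, ξ0, -⟩ := hfX.exists
    let P : Set T → T → Set T → Prop := fun a X D => (∃ ξ, fX ξ = X) ∧ X ∈ hull dec a ∧
      D ⊆ ext E X ∧
      (∀ Z ∈ hull dec a, #(ext E Z) ≤ ν → ∃ s ∈ hull dec a, ext E s = D ∩ ext E Z) ∧
      ∀ e ∈ hull dec a, ext E e ⊆ ext E X → ∃ x ∈ hull dec a, ¬ (x ∈ D ↔ x ∈ ext E e)
    have hP : ∀ᶠ a in (U : Filter (Set T)), ∃ XD : T × Set T, P a XD.1 XD.2 := by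
      filter_upwards [hfX] with a ha
      obtain ⟨ξ, hξ, hX, D, hD1, hD2, hD3⟩ := ha
      exact ⟨(fX ξ, D), ⟨ξ, rfl⟩, hX, hD1, hD2, hD3⟩
    let XD : Set T → T × Set T := fun a =>
      if h : ∃ XD : T × Set T, P a XD.1 XD.2 then h.choose else (fX ξ0, ∅)
    refine ⟨fun a => (XD a).1, fun a => (XD a).2, ?_⟩
    filter_upwards [hP] with a ha
    have : P a (XD a).1 (XD a).2 := by
      simp only [XD, dif_pos ha]
      exact ha.choose_spec
    exact this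
  obtain ⟨X, D, hXD⟩ := hch
  -- Step 1
  let Gd : ℕ → Set T → Prop := fun n Z => ∃ F : Λ → Set T, ∀ᶠ a in (U : Filter (Set T)),
    ∃ ξ, lev ξ = n ∧ D a ∩ Z = F ξ
  have hGd1 : ∀ Z : Set T, #Z ≤ ν → ∃ n, Gd n Z := by
    intro Z hZ
    obtain ⟨z, hz⟩ := hR.small Z hZ
    have h1 := ev_hull hfine hdec (fun _ : Λ => z)
    have h2 : ∀ᶠ a in (U : Filter (Set T)), ∃ s ∈ hull dec a, ext E s = D a ∩ Z := by
      filter_upwards [h1, hXD] with a ha1 ha2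
      obtain ⟨-, -, -, h3, -⟩ := ha2
      obtain ⟨ξ0⟩ : Nonempty Λ := inferInstance
      obtain ⟨s, hs, hs2⟩ := h3 z (ha1 ξ0) (by rw [hz]; exact hZ)
      exact ⟨s, hs, by rw [hs2, hz]⟩
    obtain ⟨f, n, hf⟩ := ev_exists_hull (hμ0 0) hc hn lev h2
    refine ⟨n, fun ξ => ext E (f ξ), ?_⟩
    filter_upwards [hf] with a ha
    obtain ⟨ξ, h4, h5⟩ := ha
    exact ⟨ξ, h4, h5.symm⟩
  have hGd2 : ∃ n, ∀ Z : Set T, #Z ≤ ν → Gd n Z := by
    by_contra h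
    push Not at h
    choose Z hZ1 hZ2 using h
    obtain ⟨n, F, hF⟩ := hGd1 (⋃ n, Z n) (mk_iUnion_nat_small hν0 Z hZ1)
    apply hZ2 n
    refine ⟨fun ξ => F ξ ∩ Z n, ?_⟩
    filter_upwards [hF] with a ha
    obtain ⟨ξ, h1, h2⟩ := ha
    refine ⟨ξ, h1, ?_⟩
    rw [← h2, inter_assoc, inter_eq_self_of_subset_right (subset_iUnion Z n)]
  obtain ⟨n, hGd⟩ := hGd2
  -- Step 2
  let 𝒵 : Type u := {Z : Set T // #Z ≤ ν}
  obtain ⟨hsc0, hsc1⟩ := hsc n
  obtain ⟨W, hWc, hWsmall, hWfine⟩ := hsc1 𝒵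
  choose! F hF using hGd
  let G : Set 𝒵 → Set T := fun z => ⋃ Z ∈ z, Z.1
  have hGsmall : ∀ᶠ z in (W : Filter (Set 𝒵)), #(G z) ≤ ν := by
    have h1 : ∀ᶠ z in (W : Filter (Set 𝒵)), #(z : Set 𝒵) < μ (n + 1) := hWsmall
    filter_upwards [h1] with z hz
    exact mk_biUnion_small hν0 z (hz.le.trans (hμν _)) _ fun Z _ => Z.2
  let e : Λ → Set T := fun η => {x | ∀ᶠ z in (W : Filter (Set 𝒵)), x ∈ F (G z) η}
  have hLB : ∀ Z : Set T, #Z ≤ ν → ∀ᶠ a in (U : Filter (Set T)), ∃ η, lev η = n ∧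
      D a ∩ Z = e η ∩ Z := by
    intro Z hZ
    -- the transfer function
    let Λn := {ξ : Λ // lev ξ = n}
    let R : Set 𝒵 → Λn → Option Λn → Prop := fun z η o =>
      (∀ ξ, o = some ξ → F Z η = F (G z) ξ ∩ Z) ∧ (o = none → ∀ ξ : Λn, F Z η ≠ F (G z) ξ ∩ Z)
    have hRex : ∀ z η, ∃ o, R z η o := by
      intro z η
      by_cases h : ∃ ξ : Λn, F Z η = F (G z) ξ ∩ Z
      · obtain ⟨ξ, hξ⟩ := h
        refine ⟨some ξ, ?_, ?_⟩
        · intro ξ' h'; simp only [Option.some.injEq] at h'; rw [← h']; exact hξ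
        · intro h'; cases h'
      · refine ⟨none, ?_, ?_⟩
        · intro ξ' h'; cases h'
        · intro _ ξ hξ; exact h ⟨ξ, hξ⟩
    have hcard : #Λn < μ (n + 1) := (hlev n).trans_lt (hlt n)
    have hcardo : #(Option Λn) < μ (n + 1) := by
      rw [mk_option]
      exact add_lt_of_lt hsc0.le hcard (one_lt_aleph0.trans hsc0)
    have hconst : ∀ η : Λn, ∃ o, ∀ᶠ z in (W : Filter (Set 𝒵)), R z η o := by
      intro η
      exact hWc.ev_exists hcardo (Eventually.of_forall fun z => hRex z η)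
    choose t ht using hconst
    have ht' := (hWc.ev_forall hcard).2 ht
    have hmem : ∀ᶠ z in (W : Filter (Set 𝒵)), (⟨Z, hZ⟩ : 𝒵) ∈ z := hWfine _
    obtain ⟨z, hz1, hz2, hz3⟩ := (ht'.and (hmem.and hGsmall)).exists
    have hsub : Z ⊆ G z := by
      intro x hx
      exact mem_biUnion hz2 hx
    filter_upwards [hF Z hZ, hF (G z) hz3] with a ha1 ha2
    obtain ⟨η, hη1, hη2⟩ := ha1
    obtain ⟨ξ, hξ1, hξ2⟩ := ha2
    have hFF : F Z η = F (G z) ξ ∩ Z := by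
      rw [← hη2, ← hξ2, inter_assoc, inter_eq_self_of_subset_right hsub]
    have hnn : t ⟨η, hη1⟩ ≠ none := by
      intro hnone
      exact (hz1 ⟨η, hη1⟩).2 hnone ⟨ξ, hξ1⟩ hFF
    obtain ⟨ζ, hζ⟩ := Option.ne_none_iff_exists'.1 hnn
    refine ⟨ζ, ζ.2, ?_⟩
    have hW : ∀ᶠ z' in (W : Filter (Set 𝒵)), F Z η = F (G z') ζ ∩ Z := by
      filter_upwards [ht ⟨η, hη1⟩] with z' hz'
      exact hz'.1 ζ hζ
    rw [hη2]
    ext x
    constructor
    · intro hx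
      refine ⟨?_, ?_⟩
      · change ∀ᶠ z in (W : Filter (Set 𝒵)), x ∈ F (G z) ζ
        filter_upwards [hW] with z' hz'
        rw [hz'] at hx
        exact hx.1
      · rw [← hη2] at hx
        exact hx.2
    · rintro ⟨hx1, hx2⟩
      obtain ⟨z', h1, h2⟩ := (hW.and hx1).exists
      rw [h1]
      exact ⟨h2, hx2⟩
  -- Step 3
  have hsep : ∃ Z0 : Set T, #Z0 ≤ ν ∧ ∀ η ξ : Λ, e η ∩ Z0 = e ξ ∩ Z0 → e η = e ξ := by
    obtain ⟨t0, -⟩ := hR.small ∅ (by simp)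
    have hp : ∀ p : Λ × Λ, ∃ x : T, e p.1 ≠ e p.2 → ¬ (x ∈ e p.1 ↔ x ∈ e p.2) := by
      intro p
      by_cases h : e p.1 = e p.2
      · exact ⟨t0, fun h' => absurd h h'⟩
      · have : ∃ x, ¬ (x ∈ e p.1 ↔ x ∈ e p.2) := by
          by_contra h'
          push Not at h'
          exact h (Set.ext h')
        obtain ⟨x, hx⟩ := this
        exact ⟨x, fun _ => hx⟩
    choose p hp using hp
    refine ⟨range p, ?_, ?_⟩
    · refine mk_range_le.trans ?_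
      simp only [mk_prod, lift_id, hΛ, mul_eq_self hν0, le_refl]
    · intro η ξ h
      by_contra h'
      apply hp (η, ξ) h'
      have hm : p (η, ξ) ∈ range p := ⟨_, rfl⟩
      constructor
      · intro hx
        have : p (η, ξ) ∈ e η ∩ range p := ⟨hx, hm⟩
        rw [h] at this
        exact this.1
      · intro hx
        have : p (η, ξ) ∈ e ξ ∩ range p := ⟨hx, hm⟩
        rw [← h] at this
        exact this.1
  obtain ⟨Z0, hZ0, hsep⟩ := hsep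
  -- Step 4
  obtain ⟨bX, hbX⟩ := hR.small (range fX) (mk_range_le.trans hΛ.le)
  obtain ⟨B, hB⟩ := hR.union bX
  have hcode : ∀ η, ∃ s, ext E s = e η ∩ ext E B := fun η => hR.sub B _ inter_subset_right
  choose c hc' using hcode
  have hcap : ∀ x y : T, ∃ s, ext E s = ext E x ∩ ext E y := fun x y =>
    hR.sub y _ inter_subset_right
  choose cap hcap' using hcap
  have hclosed := ev_hull_closed (dec := dec) hfine hn hdec (n := 2) (fun t => cap (t 0) (t 1))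
  have hbad2 : ∀ᶠ a in (U : Filter (Set T)), ∃ x ∈ hull dec a,
      ∀ η, D a ∩ Z0 = e η ∩ Z0 → ¬ (x ∈ D a ↔ x ∈ e η) := by
    filter_upwards [hXD, hclosed, ev_hull hfine hdec c, hLB Z0 hZ0] with a h1 h2 h3 h4
    obtain ⟨η, hη1, hη2⟩ := h4
    obtain ⟨⟨ξ, hξ⟩, hX1, hD1, -, hD3⟩ := h1
    have h5 : cap (c η) (X a) ∈ hull dec a := by
      have := h2 ![c η, X a] (by
        intro i
        fin_cases i
        · exact h3 η
        · exact hX1)
      simpa using this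
    have h6 : ext E (cap (c η) (X a)) = e η ∩ ext E (X a) := by
      rw [hcap', hc', inter_assoc]
      congr 1
      apply inter_eq_self_of_subset_right
      intro x hx
      rw [hB]
      refine ⟨X a, ?_, hx⟩
      rw [hbX]
      exact ⟨ξ, hξ⟩
    obtain ⟨x, hx1, hx2⟩ := hD3 _ h5 (by rw [h6]; exact inter_subset_right)
    refine ⟨x, hx1, ?_⟩
    intro η' hη' hiff
    have heq : e η' = e η := hsep _ _ (by rw [← hη', ← hη2])
    rw [heq] at hiff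
    apply hx2
    rw [h6]
    constructor
    · intro hx; exact ⟨hiff.1 hx, hD1 hx⟩
    · intro hx; exact hiff.2 hx.1
  obtain ⟨h, nh, hh⟩ := ev_exists_hull (hμ0 0) hc hn lev hbad2
  have hZ1 : #(Z0 ∪ range h : Set T) ≤ ν := by
    refine (mk_union_le _ _).trans ?_
    exact add_le_of_le hν0 hZ0 (mk_range_le.trans hΛ.le)
  obtain ⟨a, ha1, ha2⟩ := (hh.and (hLB _ hZ1)).exists
  obtain ⟨ξ, -, hξ⟩ := ha1
  obtain ⟨η, -, hη⟩ := ha2
  have hη0 : D a ∩ Z0 = e η ∩ Z0 := by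
    ext x
    constructor
    · rintro ⟨hx1, hx2⟩
      have : x ∈ D a ∩ (Z0 ∪ range h) := ⟨hx1, Or.inl hx2⟩
      rw [hη] at this
      exact ⟨this.1, hx2⟩
    · rintro ⟨hx1, hx2⟩
      have : x ∈ e η ∩ (Z0 ∪ range h) := ⟨hx1, Or.inl hx2⟩
      rw [← hη] at this
      exact ⟨this.1, hx2⟩
  apply hξ η hη0
  constructor
  · intro hx
    have : h ξ ∈ D a ∩ (Z0 ∪ range h) := ⟨hx, Or.inr ⟨ξ, rfl⟩⟩
    rw [hη] at this
    exact this.1
  · intro hx
    have : h ξ ∈ e η ∩ (Z0 ∪ range h) := ⟨hx, Or.inr ⟨ξ, rfl⟩⟩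
    rw [← hη] at this
    exact this.1

end

end Pool.Agent.X209.Gss
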