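import Pool.Agent.X209.Gss.Concrete

open Cardinal Filter Set FirstOrder
open scoped ZFSet

namespace Pool.Agent.X209.Gss

universe u

/-- `V(α)`, as a family of sets. -/
def Vset (α : Ordinal.{u}) : Set ZFSet.{u} := {x | x ∈ V_ α}

/-- `H(θ)`: the sets contained in a transitive set with fewer than `θ` elements. -/
def Hset (θ : Cardinal.{u}) : Set ZFSet.{u} :=
  {x | ∃ t : ZFSet.{u}, t.IsTransitive ∧ x ⊆ t ∧ t.card < θ}

theorem rank_attained {t : ZFSet.{u}} (ht : t.IsTransitive) :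
    ∀ y : ZFSet.{u}, y ∈ t → ∀ α ≤ y.rank, ∃ z ∈ t, z.rank = α := by
  intro y
  induction y using ZFSet.inductionOn with
  | _ y ih =>
    intro hy α hα
    rcases hα.eq_or_lt with h | h
    · exact ⟨y, hy, h.symm⟩
    · obtain ⟨z, hz, hz2⟩ := ZFSet.lt_rank_iff.1 h
      exact ih z hz (ht.mem_trans hz hy) α hz2

theorem rank_lt_of_transitive {t : ZFSet.{u}} (ht : t.IsTransitive) {θ : Cardinal.{u}}
    (hc : t.card < θ) : t.rank < θ.ord := by
  rw [Cardinal.lt_ord]
  refine lt_of_le_of_lt ?_ hc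
  have h : ∀ α : Iio t.rank, ∃ z : t, z.1.rank = α.1 := by
    rintro ⟨α, hα⟩
    obtain ⟨y, hy, hy2⟩ := ZFSet.lt_rank_iff.1 hα
    obtain ⟨z, hz, hz2⟩ := rank_attained ht y hy α hy2
    exact ⟨⟨z, hz⟩, hz2⟩
  choose f hf using h
  have h2 : #(Iio t.rank) ≤ #t := mk_le_of_injective (f := f) (by
    intro a b hab
    apply Subtype.ext
    rw [← hf, ← hf, hab])
  rw [ZFSet.cardinalMk_coe_sort, Cardinal.mk_Iio_ordinal] at h2
  exact Cardinal.lift_le.1 h2

theorem small_Vset (α : Ordinal.{u}) : Small.{u} (Vset α) :=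
  inferInstanceAs (Small.{u} (V_ α : ZFSet.{u}))

theorem Hset_sub (θ : Cardinal.{u}) : Hset θ ⊆ Vset θ.ord := by
  rintro x ⟨t, ht, hxt, hc⟩
  change x ∈ V_ _
  rw [ZFSet.mem_vonNeumann]
  exact (ZFSet.rank_mono hxt).trans_lt (rank_lt_of_transitive ht hc)

theorem richSet_Vset {ν : Cardinal.{u}} {α : Ordinal.{u}} (h1 : ν < α.cof)
    (h2 : (Order.succ ν).ord < α) : RichSet (Vset α) ν := by
  have hmem : ∀ x : ZFSet.{u}, x ∈ Vset α ↔ x.rank < α := fun x => ZFSet.mem_vonNeumann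
  refine ⟨small_Vset α, ?_, ?_, ?_, ?_, ?_⟩
  · intro x hx y hy
    rw [hmem] at *
    exact (ZFSet.rank_lt_of_mem hy).trans hx
  · intro x hx y hy
    rw [hmem] at *
    exact (ZFSet.rank_mono hy).trans_lt hx
  · intro x hx hxc
    rw [hmem]
    obtain ⟨A, f, hA, hfi, hf⟩ := exists_param x
    have h3 : x.rank ≤ ⨆ a, (f a).rank + 1 := by
      rw [ZFSet.rank_le_iff]
      intro y hy
      obtain ⟨a, rfl⟩ := (hf y).1 hy
      exact (lt_add_one _).trans_le (le_ciSup (f := fun a => (f a).rank + 1) Ordinal.bddAbove_of_small a)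
    refine h3.trans_lt ?_
    apply Ordinal.iSup_add_one_lt_of_lt_cof
    · exact (hA.le.trans hxc).trans_lt h1
    · intro a
      exact (hmem _).1 (hx _ ((hf _).2 ⟨a, rfl⟩))
  · intro x hx
    rw [hmem] at *
    exact (ZFSet.rank_sUnion_le x).trans_lt hx
  · rw [hmem, Ordinal.rank_toZFSet]
    exact h2

theorem richSet_Hset {ν θ : Cardinal.{u}} (hν0 : ℵ₀ ≤ ν) (h1 : θ.IsRegular)
    (h2 : Order.succ ν < θ) : RichSet (Hset θ) ν := by
  have hsm := small_Vset θ.ord
  have hνθ : ν < θ := (Order.lt_succ ν).trans h2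
  refine ⟨small_subset (Hset_sub θ), ?_, ?_, ?_, ?_, ?_⟩
  · rintro x ⟨t, ht, hxt, hc⟩ y hy
    exact ⟨t, ht, ht _ (hxt hy), hc⟩
  · rintro x ⟨t, ht, hxt, hc⟩ y hy
    exact ⟨t, ht, hy.trans hxt, hc⟩
  · intro x hx hxc
    obtain ⟨A, f, hA, hfi, hf⟩ := exists_param x
    have h3 : ∀ a, ∃ t : ZFSet.{u}, t.IsTransitive ∧ f a ⊆ t ∧ t.card < θ := fun a =>
      hx _ ((hf _).2 ⟨a, rfl⟩)
    choose t ht1 ht2 ht3 using h3
    refine ⟨x ∪ ZFSet.iUnion t, ?_, ?_, ?_⟩
    · intro y hy z hz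
      rw [ZFSet.mem_union] at hy ⊢
      right
      rw [ZFSet.mem_iUnion]
      rcases hy with hy | hy
      · obtain ⟨a, rfl⟩ := (hf y).1 hy
        exact ⟨a, ht2 a hz⟩
      · rw [ZFSet.mem_iUnion] at hy
        obtain ⟨a, ha⟩ := hy
        exact ⟨a, (ht1 a).mem_trans hz ha⟩
    · intro y hy
      rw [ZFSet.mem_union]
      exact Or.inl hy
    · refine ZFSet.card_union_le.trans_lt ?_
      apply add_lt_of_lt (hν0.trans hνθ.le) (hxc.trans_lt hνθ)
      have h4 : ∀ a, ∃ (B : Type u) (g : B → ZFSet.{u}), #B = (t a).card ∧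
        Function.Injective g ∧ ∀ y, y ∈ t a ↔ ∃ b, g b = y := fun a => exists_param (t a)
      choose B g hB hgi hg using h4
      have h5 : (ZFSet.iUnion t).card ≤ #(Σ a, B a) := by
        apply card_le_of_param (fun p : (Σ a, B a) => g p.1 p.2)
        intro y hy
        rw [ZFSet.mem_iUnion] at hy
        obtain ⟨a, ha⟩ := hy
        obtain ⟨b, hb⟩ := (hg a y).1 ha
        exact ⟨⟨a, b⟩, hb⟩
      refine h5.trans_lt ?_
      rw [mk_sigma]
      refine (sum_le_mk_mul_iSup _).trans_lt ?_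
      apply mul_lt_of_lt (hν0.trans hνθ.le)
      · exact (hA.le.trans hxc).trans_lt hνθ
      · apply iSup_lt_of_lt_cof_ord
        · rw [h1.cof_ord]
          exact (hA.le.trans hxc).trans_lt hνθ
        · intro a
          rw [hB]
          exact ht3 a
  · rintro x ⟨t, ht, hxt, hc⟩
    refine ⟨t, ht, ?_, hc⟩
    intro y hy
    obtain ⟨z, hz, hyz⟩ := ZFSet.mem_sUnion.1 hy
    exact ht.mem_trans hyz (hxt hz)
  · refine ⟨_, (ZFSet.isOrdinal_toZFSet _).isTransitive, fun x hx => hx, ?_⟩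
    rw [Ordinal.card_toZFSet, card_ord]
    exact h2

/-- strongly compact cardinals are strong limit -/
theorem StronglyCompact.two_power_lt {κ : Cardinal.{u}} (h : StronglyCompact κ)
    {c : Cardinal.{u}} (hc : c < κ) : 2 ^ c < κ := by
  classical
  by_contra hcon
  push Not at hcon
  let X : Type u := κ.out
  let Z : Type u := c.out
  have hXZ : #X ≤ #(Set Z) := by
    rw [mk_set, mk_out, mk_out]
    exact hcon
  obtain ⟨f⟩ := hXZ
  obtain ⟨-, h2⟩ := h
  obtain ⟨U, hU, hsm, hfine⟩ := h2 X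
  have h3 : ∀ᶠ a in (U : Filter (Set X)), ∃ x : X, x ∉ a := by
    have hsm' : ∀ᶠ a in (U : Filter (Set X)), #(a : Set X) < κ := hsm
    filter_upwards [hsm'] with a ha
    by_contra h4
    push Not at h4
    have : a = Set.univ := eq_univ_of_forall h4
    rw [this, mk_univ, mk_out] at ha
    exact lt_irrefl _ ha
  obtain ⟨a0, x0, -⟩ := h3.exists
  let g : Set X → X := fun a => if h : ∃ x : X, x ∉ a then h.choose else x0
  have hg : ∀ᶠ a in (U : Filter (Set X)), g a ∉ a := by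
    filter_upwards [h3] with a ha
    simp only [g, dif_pos ha]
    exact ha.choose_spec
  let D : Set Z := {z | ∀ᶠ a in (U : Filter (Set X)), z ∈ f (g a)}
  have h5 : ∀ᶠ a in (U : Filter (Set X)), ∀ z : Z, (z ∈ f (g a) ↔ z ∈ D) := by
    refine (hU.ev_forall (by rw [mk_out]; exact hc)).2 ?_
    intro z
    by_cases hz : z ∈ D
    · have hz' : ∀ᶠ a in (U : Filter (Set X)), z ∈ f (g a) := hz
      filter_upwards [hz'] with a ha
      exact ⟨fun _ => hz, fun _ => ha⟩
    · have hz' : ∀ᶠ a in (U : Filter (Set X)), z ∉ f (g a) := by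
        rw [Ultrafilter.eventually_not]
        exact hz
      filter_upwards [hz'] with a ha
      exact ⟨fun h => absurd h ha, fun h => absurd h hz⟩
  obtain ⟨a1, ha1⟩ := h5.exists
  have h6 : ∀ᶠ a in (U : Filter (Set X)), g a1 ∈ a := hfine _
  obtain ⟨a2, ha2, ha3, ha4⟩ := (h5.and (h6.and hg)).exists
  have h7 : f (g a2) = f (g a1) := by
    ext z
    rw [ha2 z, ha1 z]
  have h8 := f.injective h7
  rw [h8] at ha4
  exact ha4 ha3

theorem iSup_strongLimit {μ : ℕ → Cardinal.{u}} (hlt : ∀ n, μ n < μ (n + 1))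
    (hsc : ∀ n, StronglyCompact (μ (n + 1))) {c : Cardinal.{u}} (hc : c < ⨆ n, μ n) :
    2 ^ c < ⨆ n, μ n := by
  obtain ⟨n, hn⟩ := exists_lt_of_lt_ciSup hc
  exact ((hsc n).two_power_lt (hn.trans (hlt n))).trans_le (le_ciSup bddAbove_of_small (n + 1))

theorem iSup_cof {μ : ℕ → Cardinal.{u}} (hlt : ∀ n, μ n < μ (n + 1)) :
    (⨆ n, μ n).ord.cof = ℵ₀ := by
  have hm : StrictMono μ := strictMono_nat_of_lt_succ hlt
  have hm2 : StrictMono (fun n => (μ n).ord) := fun a b h => ord_lt_ord.2 (hm h)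
  rw [Ordinal.iSup_ord]
  have := Ordinal.lift_cof_iSup hm2
  simpa using this

end Pool.Agent.X209.Gss
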